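import Pool.Agent.R819.Fan2

/-!
# An Ascoli `ℵ`-space which is not a `C[M]`-space

The space consists of a point `o`, points `y n b` and isolated points `s n b m`, where `n`, `m` are
natural numbers and `b` is an injective sequence of real numbers; `s n b m → y n b` for `m → ∞`, and
each neighbourhood of `o` contains all `y n b` with large `n`. For a real number `a` let `U a` be the
open set of all points except the `s n b m` with `b j = a` for some `j ≥ m`. If the point `o` had a
neighbourhood contained in `U (f j)` for all `j`, where `f` is an injective sequence of real numbers, then
it would contain `y k f` and then `s k f l` for some `l`, a contradiction. On the other hand, in a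
space `C_k (Z, Y)` with separable metrizable `Z` and metrizable `Y` every uncountable family of
neighbourhoods of a point has a countably infinite subfamily whose intersection is a neighbourhood,
since each uncountable family of compact subsets of `Z` contains a sequence with relatively compact
union.
-/

set_option autoImplicit false

open Set Topology TopologicalSpace

namespace Pool.Agent.Results.MP_36ad39_gt.AscoliAlephSpace

open Pool.Agent.R819.Fan

universe u v

/-- **There is an Ascoli `ℵ`-space which is not homeomorphic to a subspace of `C_k (Z, Y)` for any
separable metrizable space `Z` and any metrizable space `Y`.** -/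
theorem result : ∃ (X : Type) (_ : TopologicalSpace X), AlephSpace X ∧ Ascoli X ∧
    ∀ (Z : Type u) (Y : Type v) [TopologicalSpace Z] [TopologicalSpace Y] [MetrizableSpace Z]
      [SeparableSpace Z] [MetrizableSpace Y], ¬ ∃ e : X → C(Z, Y), IsEmbedding e := by
  refine ⟨Pool.Agent.R819.Fan.X, inferInstance, alephSpace, ascoli, ?_⟩
  rintro Z Y _ _ _ _ _ ⟨e, he⟩
  let _ := metrizableSpaceMetric Z
  have : SecondCountableTopology Z := UniformSpace.secondCountable_of_separable Z
  exact no_embedding e he

end Pool.Agent.Results.MP_36ad39_gt.AscoliAlephSpace
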